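import Pool.Agent.Helper83.ME.Force
import Pool.Agent.Helper89.ME.St.Lat3

/-!
# Step 4 (second tree), part a: genericity and operators
-/

set_option autoImplicit false

namespace ME

open Encodable Set Filter Topology

/-! ### uniform families of operators -/

section param

variable {α β γ δ : Type} [Primcodable α] [Primcodable β] [Primcodable γ] [Primcodable δ]

/-- a uniform family of operators -/
def IsOpP (Φ : δ → Set α → Set β) : Prop :=
  EP (fun (X : Set α) (q : δ × β) => q.2 ∈ Φ q.1 X)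

theorem IsOp.toP {Φ : Set α → Set β} (h : IsOp Φ) : IsOpP (fun (_ : δ) => Φ) :=
  EP.subst h Primrec.snd

theorem IsOpP.comp {Θ : Set β → Set γ} (hΘ : IsOp Θ) {Φ : δ → Set α → Set β} (hΦ : IsOpP Φ) :
    IsOpP (fun d X => Θ (Φ d X)) :=
  EP.op_param (P := fun Z x => x ∈ Θ Z) hΘ hΦ

theorem IsOpP.sj {Φ : δ → Set α → Set β} {Ψ : δ → Set α → Set γ} (hΦ : IsOpP Φ)
    (hΨ : IsOpP Ψ) : IsOpP (fun d X => sj (Φ d X) (Ψ d X)) := by
  have h1 : EP (fun (X : Set α) (y : (δ × (β ⊕ γ)) × β) =>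
      y.1.2 = Sum.inl y.2 ∧ y.2 ∈ Φ y.1.1 X) :=
    EP.and (EP.re (RE.eq (Primrec.snd.comp Primrec.fst) (Primrec.sumInl.comp Primrec.snd)))
      (EP.subst hΦ ((Primrec.fst.comp Primrec.fst).pair Primrec.snd))
  have h2 : EP (fun (X : Set α) (y : (δ × (β ⊕ γ)) × γ) =>
      y.1.2 = Sum.inr y.2 ∧ y.2 ∈ Ψ y.1.1 X) :=
    EP.and (EP.re (RE.eq (Primrec.snd.comp Primrec.fst) (Primrec.sumInr.comp Primrec.snd)))
      (EP.subst hΨ ((Primrec.fst.comp Primrec.fst).pair Primrec.snd))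
  refine (h1.ex.or h2.ex).of_iff ?_
  rintro X ⟨d, s⟩
  cases s with
  | inl a => simp
  | inr b => simp

theorem IsOpP.section {Γ : Set α → Set (δ × β)} (h : IsOp Γ) :
    IsOpP (fun d X => {b | (d, b) ∈ Γ X}) := h

end param

/-! ### operators on trees -/

/-- the labels along a branch are given by an operator -/
theorem exists_rhoOp : ∃ Φ : Set ((List Bool × Bool) ⊕ (ℕ × Bool)) → Set (ℕ × Bool), IsOp Φ ∧
    ∀ t y, Φ (sj (gr t) (gr y)) = gr (rho t y) := by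
  refine ⟨fun X => {q | ∃ s : List Bool, s.length = q.1 ∧
    (∀ i ∈ List.range q.1, Sum.inr (i, s.getD i false) ∈ X) ∧ Sum.inl (s, q.2) ∈ X}, ?_, ?_⟩
  · have h1 : EP (fun (X : Set ((List Bool × Bool) ⊕ (ℕ × Bool)))
        (y : (ℕ × Bool) × List Bool) => y.2.length = y.1.1) :=
      EP.re (RE.eq (Primrec.list_length.comp Primrec.snd) (Primrec.fst.comp Primrec.fst))
    have h2 : EP (fun (X : Set ((List Bool × Bool) ⊕ (ℕ × Bool)))
        (y : (ℕ × Bool) × List Bool) =>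
        ∀ i ∈ List.range y.1.1, Sum.inr (i, y.2.getD i false) ∈ X) := by
      have h3 : EP (fun (X : Set ((List Bool × Bool) ⊕ (ℕ × Bool)))
          (z : ((ℕ × Bool) × List Bool) × ℕ) => Sum.inr (z.2, z.1.2.getD z.2 false) ∈ X) :=
        EP.mem (f := fun z : ((ℕ × Bool) × List Bool) × ℕ => (Sum.inr (z.2, z.1.2.getD z.2 false)
            : (List Bool × Bool) ⊕ (ℕ × Bool)))
          (Primrec.sumInr.comp (Primrec.snd.pair ((Primrec.list_getD false).comp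
            (Primrec.snd.comp Primrec.fst) Primrec.snd)))
      exact EP.ball (P := fun (X : Set ((List Bool × Bool) ⊕ (ℕ × Bool)))
          (z : ((ℕ × Bool) × List Bool) × ℕ) => Sum.inr (z.2, z.1.2.getD z.2 false) ∈ X) h3
        (g := fun y => List.range y.1.1) (Primrec.list_range.comp (Primrec.fst.comp Primrec.fst))
    have h4 : EP (fun (X : Set ((List Bool × Bool) ⊕ (ℕ × Bool)))
        (y : (ℕ × Bool) × List Bool) => Sum.inl (y.2, y.1.2) ∈ X) :=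
      EP.mem (f := fun y : (ℕ × Bool) × List Bool => (Sum.inl (y.2, y.1.2)
            : (List Bool × Bool) ⊕ (ℕ × Bool)))
        (Primrec.sumInl.comp (Primrec.snd.pair (Primrec.snd.comp Primrec.fst)))
    exact (EP.and h1 (EP.and h2 h4)).ex
  · intro t y
    ext ⟨k, b⟩
    change (∃ s : List Bool, s.length = k ∧ (∀ i ∈ List.range k, y i = s.getD i false) ∧ t s = b)
      ↔ t (pre y k) = b
    constructor
    · rintro ⟨s, h1, h2, h3⟩
      have : s = pre y k := by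
        refine List.ext_getElem (by rw [h1, length_pre]) (fun i hi hi' => ?_)
        rw [pre_getElem, h2 i (List.mem_range.mpr (by omega)), List.getD_eq_getElem _ _ hi]
      rw [← this]
      exact h3
    · intro h
      refine ⟨pre y k, length_pre _ _, fun i hi => ?_, h⟩
      have hi' : i < (pre y k).length := by
        rw [length_pre]; exact List.mem_range.mp hi
      rw [List.getD_eq_getElem _ _ hi', pre_getElem]

/-- comparison of the lengths of common prefixes -/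
theorem exists_cmpOp : ∃ K : Set ((ℕ × Bool) ⊕ ((ℕ × Bool) ⊕ ((ℕ × Bool) ⊕ (ℕ × Bool)))) → Set Bool,
    IsOp K ∧ ∀ x1 x2 y1 y2 : ℕ → Bool, x1 ≠ x2 → y1 ≠ y2 →
      K (sj (gr x1) (sj (gr x2) (sj (gr y1) (gr y2)))) = {decide (fd x1 x2 < fd y1 y2)} := by
  -- `dif x1 x2 N`: the values at `N` are different; `agr`: they are equal
  let T : Type := (ℕ × Bool) ⊕ ((ℕ × Bool) ⊕ ((ℕ × Bool) ⊕ (ℕ × Bool)))
  let i1 : ℕ × Bool → T := Sum.inl
  let i2 : ℕ × Bool → T := fun q => Sum.inr (Sum.inl q)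
  let i3 : ℕ × Bool → T := fun q => Sum.inr (Sum.inr (Sum.inl q))
  let i4 : ℕ × Bool → T := fun q => Sum.inr (Sum.inr (Sum.inr q))
  have p1 : Primrec i1 := Primrec.sumInl
  have p2 : Primrec i2 := Primrec.sumInr.comp Primrec.sumInl
  have p3 : Primrec i3 := Primrec.sumInr.comp (Primrec.sumInr.comp Primrec.sumInl)
  have p4 : Primrec i4 := Primrec.sumInr.comp (Primrec.sumInr.comp Primrec.sumInr)
  -- values at `N` different
  have hdif : ∀ i j : ℕ × Bool → T, Primrec i → Primrec j →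
      EP (fun (Z : Set T) (N : ℕ) => ∃ b, i (N, b) ∈ Z ∧ j (N, !b) ∈ Z) := by
    intro i j hi hj
    have h1 : EP (fun (Z : Set T) (y : ℕ × Bool) => i (y.1, y.2) ∈ Z) :=
      EP.mem (f := fun y : ℕ × Bool => i (y.1, y.2)) (hi.comp (Primrec.fst.pair Primrec.snd))
    have h2 : EP (fun (Z : Set T) (y : ℕ × Bool) => j (y.1, !y.2) ∈ Z) :=
      EP.mem (f := fun y : ℕ × Bool => j (y.1, !y.2))
        (hj.comp (Primrec.fst.pair (Primrec.not.comp Primrec.snd)))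
    exact (EP.and h1 h2).ex
  have hagr : ∀ i j : ℕ × Bool → T, Primrec i → Primrec j →
      EP (fun (Z : Set T) (M : ℕ) => ∀ k ∈ List.range M, ∃ b, i (k, b) ∈ Z ∧ j (k, b) ∈ Z) := by
    intro i j hi hj
    have h1 : EP (fun (Z : Set T) (y : (ℕ × ℕ) × Bool) => i (y.1.2, y.2) ∈ Z) :=
      EP.mem (f := fun y : (ℕ × ℕ) × Bool => i (y.1.2, y.2))
        (hi.comp ((Primrec.snd.comp Primrec.fst).pair Primrec.snd))
    have h2 : EP (fun (Z : Set T) (y : (ℕ × ℕ) × Bool) => j (y.1.2, y.2) ∈ Z) :=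
      EP.mem (f := fun y : (ℕ × ℕ) × Bool => j (y.1.2, y.2))
        (hj.comp ((Primrec.snd.comp Primrec.fst).pair Primrec.snd))
    have h3 : EP (fun (Z : Set T) (y : ℕ × ℕ) => ∃ b, i (y.2, b) ∈ Z ∧ j (y.2, b) ∈ Z) :=
      (EP.and h1 h2).ex
    exact EP.ball (P := fun (Z : Set T) (y : ℕ × ℕ) => ∃ b, i (y.2, b) ∈ Z ∧ j (y.2, b) ∈ Z) h3
      (g := fun M => List.range M) Primrec.list_range
  refine ⟨fun Z => {v | (v = true ∧ ∃ N, (∃ b, i1 (N, b) ∈ Z ∧ i2 (N, !b) ∈ Z) ∧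
      ∀ k ∈ List.range (N + 1), ∃ b, i3 (k, b) ∈ Z ∧ i4 (k, b) ∈ Z) ∨
    (v = false ∧ ∃ N, (∃ b, i3 (N, b) ∈ Z ∧ i4 (N, !b) ∈ Z) ∧
      ∀ k ∈ List.range N, ∃ b, i1 (k, b) ∈ Z ∧ i2 (k, b) ∈ Z)}, ?_, ?_⟩
  · have e1 : EP (fun (Z : Set T) (y : Bool × ℕ) => (∃ b, i1 (y.2, b) ∈ Z ∧ i2 (y.2, !b) ∈ Z) ∧
        ∀ k ∈ List.range (y.2 + 1), ∃ b, i3 (k, b) ∈ Z ∧ i4 (k, b) ∈ Z) :=
      EP.and (EP.subst (hdif i1 i2 p1 p2) Primrec.snd)
        (EP.subst (hagr i3 i4 p3 p4) (Primrec.succ.comp Primrec.snd))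
    have e2 : EP (fun (Z : Set T) (y : Bool × ℕ) => (∃ b, i3 (y.2, b) ∈ Z ∧ i4 (y.2, !b) ∈ Z) ∧
        ∀ k ∈ List.range y.2, ∃ b, i1 (k, b) ∈ Z ∧ i2 (k, b) ∈ Z) :=
      EP.and (EP.subst (hdif i3 i4 p3 p4) Primrec.snd)
        (EP.subst (hagr i1 i2 p1 p2) Primrec.snd)
    exact EP.or (EP.and (EP.re (RE.eq Primrec.id (Primrec.const true))) e1.ex)
      (EP.and (EP.re (RE.eq Primrec.id (Primrec.const false))) e2.ex)
  · intro x1 x2 y1 y2 hx hy
    have a1 : ∀ N, (∃ b, x1 N = b ∧ x2 N = !b) ↔ x1 N ≠ x2 N := by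
      intro N
      cases h1 : x1 N <;> cases h2 : x2 N <;> simp
    have a2 : ∀ N, (∃ b, y1 N = b ∧ y2 N = !b) ↔ y1 N ≠ y2 N := by
      intro N
      cases h1 : y1 N <;> cases h2 : y2 N <;> simp
    have a3 : ∀ M, (∀ k ∈ List.range M, ∃ b, y1 k = b ∧ y2 k = b) ↔ ∀ k < M, y1 k = y2 k := by
      intro M
      simp [List.mem_range, eq_comm]
    have a4 : ∀ M, (∀ k ∈ List.range M, ∃ b, x1 k = b ∧ x2 k = b) ↔ ∀ k < M, x1 k = x2 k := by
      intro M
      simp [List.mem_range, eq_comm]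
    ext v
    change ((v = true ∧ ∃ N, (∃ b, x1 N = b ∧ x2 N = !b) ∧
        ∀ k ∈ List.range (N + 1), ∃ b, y1 k = b ∧ y2 k = b) ∨
      (v = false ∧ ∃ N, (∃ b, y1 N = b ∧ y2 N = !b) ∧
        ∀ k ∈ List.range N, ∃ b, x1 k = b ∧ x2 k = b)) ↔ v = decide (fd x1 x2 < fd y1 y2)
    have b1 : (∃ N, (∃ b, x1 N = b ∧ x2 N = !b) ∧
        ∀ k ∈ List.range (N + 1), ∃ b, y1 k = b ∧ y2 k = b) ↔ fd x1 x2 < fd y1 y2 := by
      constructor
      · rintro ⟨N, h1, h2⟩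
        rw [a1] at h1
        rw [a3] at h2
        have h3 : fd x1 x2 ≤ N := by
          by_contra h
          exact h1 (fd_eq_of_lt (not_le.mp h))
        have h4 : N + 1 ≤ fd y1 y2 := le_fd hy h2
        omega
      · intro h
        refine ⟨fd x1 x2, (a1 _).mpr (fd_ne hx), (a3 _).mpr (fun k hk => ?_)⟩
        exact fd_eq_of_lt (by omega)
    have b2 : (∃ N, (∃ b, y1 N = b ∧ y2 N = !b) ∧
        ∀ k ∈ List.range N, ∃ b, x1 k = b ∧ x2 k = b) ↔ ¬ fd x1 x2 < fd y1 y2 := by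
      constructor
      · rintro ⟨N, h1, h2⟩
        rw [a2] at h1
        rw [a4] at h2
        have h3 : fd y1 y2 ≤ N := by
          by_contra h
          exact h1 (fd_eq_of_lt (not_le.mp h))
        have h4 : N ≤ fd x1 x2 := le_fd hx h2
        omega
      · intro h
        refine ⟨fd y1 y2, (a2 _).mpr (fd_ne hy), (a4 _).mpr (fun k hk => ?_)⟩
        exact fd_eq_of_lt (by omega)
    rw [b1, b2]
    by_cases h : fd x1 x2 < fd y1 y2
    · simp [h]
    · simp [h]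

/-! ### genericity -/

/-- the space of second trees with two branches -/
abbrev X3 : Type := (List Bool → Bool) × ((ℕ → Bool) × (ℕ → Bool))

/-- `X3` as a Cantor space -/
def eX3 : (List Bool ⊕ (ℕ ⊕ ℕ) → Bool) ≃ₜ X3 :=
  Homeomorph.sumArrowHomeomorphProdArrow.trans
    ((Homeomorph.refl _).prodCongr Homeomorph.sumArrowHomeomorphProdArrow)

theorem eX3_apply (g : List Bool ⊕ (ℕ ⊕ ℕ) → Bool) : eX3 g =
    (fun w => g (Sum.inl w), (fun n => g (Sum.inr (Sum.inl n)), fun n => g (Sum.inr (Sum.inr n)))) :=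
  rfl

/-- the tree and the branches are given by operators -/
theorem exists_splitOp (β : Type) [Primcodable β] :
    ∃ Ψ : Set (β ⊕ ((List Bool ⊕ (ℕ ⊕ ℕ)) × Bool)) →
        Set (β ⊕ ((List Bool × Bool) ⊕ ((ℕ × Bool) ⊕ (ℕ × Bool)))), IsOp Ψ ∧
      ∀ (C : Set β) g, Ψ (sj C (gr g)) =
        sj C (sj (gr (eX3 g).1) (sj (gr (eX3 g).2.1) (gr (eX3 g).2.2))) := by
  refine ⟨fun Z => sj {b | Sum.inl b ∈ Z} (sj {q | Sum.inr (Sum.inl q.1, q.2) ∈ Z}
    (sj {q | Sum.inr (Sum.inr (Sum.inl q.1), q.2) ∈ Z}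
      {q | Sum.inr (Sum.inr (Sum.inr q.1), q.2) ∈ Z})), ?_, fun C g => rfl⟩
  refine IsOp.sj IsOp.inl (IsOp.sj ?_ (IsOp.sj ?_ ?_))
  · exact EP.mem (f := fun q : List Bool × Bool => (Sum.inr (Sum.inl q.1, q.2) :
      β ⊕ ((List Bool ⊕ (ℕ ⊕ ℕ)) × Bool)))
      (Primrec.sumInr.comp ((Primrec.sumInl.comp Primrec.fst).pair Primrec.snd))
  · exact EP.mem (f := fun q : ℕ × Bool => (Sum.inr (Sum.inr (Sum.inl q.1), q.2) :
      β ⊕ ((List Bool ⊕ (ℕ ⊕ ℕ)) × Bool)))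
      (Primrec.sumInr.comp ((Primrec.sumInr.comp (Primrec.sumInl.comp Primrec.fst)).pair
        Primrec.snd))
  · exact EP.mem (f := fun q : ℕ × Bool => (Sum.inr (Sum.inr (Sum.inr q.1), q.2) :
      β ⊕ ((List Bool ⊕ (ℕ ⊕ ℕ)) × Bool)))
      (Primrec.sumInr.comp ((Primrec.sumInr.comp (Primrec.sumInr.comp Primrec.fst)).pair
        Primrec.snd))

theorem prefix_pre_of_mem_cyl {u : List Bool} {y : ℕ → Bool} (h : y ∈ cyl u) {n : ℕ}
    (hn : u.length ≤ n) : u <+: pre y n := by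
  have h1 : pre y u.length = u := h
  rw [← h1]
  exact pre_prefix y hn

theorem mem_cyl_of_prefix_pre {u : List Bool} {y : ℕ → Bool} {n : ℕ} (h : u <+: pre y n) :
    y ∈ cyl u := by
  have h1 : u.length ≤ n := by
    have := h.length_le
    rwa [length_pre] at this
  rw [mem_cyl_iff]
  have h2 : pre y u.length <+: pre y n := pre_prefix y h1
  have h3 : u = (pre y n).take u.length := List.prefix_iff_eq_take.mp h
  have h4 : pre y u.length = (pre y n).take u.length := by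
    have := List.prefix_iff_eq_take.mp h2
    rwa [length_pre] at this
  rw [h4, ← h3]

/-- two different branches are separated by a string -/
theorem exists_sep {y a z : ℕ → Bool} (h1 : y ≠ a) (h2 : y ≠ z) :
    ∃ u : List Bool, y ∈ cyl u ∧ a ∉ cyl u ∧ z ∉ cyl u := by
  have key : ∀ w : ℕ → Bool, y ≠ w → ∀ n, fd y w < n → w ∉ cyl (pre y n) := by
    intro w hw n hn h
    have h3 : pre w n = pre y n := by
      have : pre w (pre y n).length = pre y n := h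
      rwa [length_pre] at this
    exact fd_ne hw ((pre_eq_iff.mp h3 _ hn).symm)
  refine ⟨pre y (max (fd y a) (fd y z) + 1), ?_, key a h1 _ ?_, key z h2 _ ?_⟩
  · change pre y (pre y _).length = _
    rw [length_pre]
  · have := le_max_left (fd y a) (fd y z); omega
  · have := le_max_right (fd y a) (fd y z); omega

/-- a generic real avoids the labels above `u` -/
theorem avoid_rho {β ι : Type} [Primcodable β] [Primcodable ι] (t : List Bool → Bool) (C : Set β)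
    (u : List Bool)
    (hP : ∀ Θ : Set β → Set (ℕ × Bool), IsOp Θ → (∀ n, ∃ v, (n, v) ∈ Θ C) →
      ∃ n v, u.length ≤ n ∧ (n, v) ∈ Θ C ∧ ∀ w, u <+: w → w.length = n → t w = !v)
    (Θ : Set (β ⊕ (ι × Bool)) → Set (ℕ × Bool)) (hΘ : IsOp Θ) :
    ∃ V : Set (ι → Bool), IsOpen V ∧ Dense V ∧ ∀ g ∈ V, ∀ y ∈ cyl u,
      Θ (sj C (gr g)) ≠ gr (rho t y) := by
  classical
  have hS : ∀ x : β ⊕ (ι × Bool), IsOpen {g : ι → Bool | x ∈ sj C (gr g)} := fun x =>
    isOpen_mem_sj (fun x => isOpen_const_mem C x) (fun x => isOpen_mem_gr continuous_id x) x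
  set A : Set (ι → Bool) := {g | ∃ n v, (u.length ≤ n ∧
    ∀ w, u <+: w → w.length = n → t w = !v) ∧ (n, v) ∈ Θ (sj C (gr g))} with hA
  set D : Set (ι → Bool) := {g | ∃ n, ∀ v, (n, v) ∉ Θ (sj C (gr g))} with hD
  have hAo : IsOpen A := by
    have : A = ⋃ q : {q : ℕ × Bool // u.length ≤ q.1 ∧
        ∀ w, u <+: w → w.length = q.1 → t w = !q.2}, {g | q.1 ∈ Θ (sj C (gr g))} := by
      ext g
      simp only [mem_iUnion]
      constructor
      · rintro ⟨n, v, h1, h2⟩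
        exact ⟨⟨(n, v), h1⟩, h2⟩
      · rintro ⟨⟨⟨n, v⟩, h1⟩, h2⟩
        exact ⟨n, v, h1, h2⟩
    rw [this]
    exact isOpen_iUnion (fun q => hΘ.isOpen hS _)
  refine ⟨A ∪ interior D, hAo.union isOpen_interior, ?_, ?_⟩
  · rw [dense_iff_inter_open]
    rintro O hO ⟨g0, hg0⟩
    obtain ⟨F, hF⟩ := exists_basic hO hg0
    obtain ⟨Θ', hΘ', hΘC⟩ := forced_op Θ hΘ (F.toList.map (fun i => (i, g0 i)))
    have hq : ∀ g : ι → Bool, (∀ p ∈ F.toList.map (fun i => (i, g0 i)), g p.1 = p.2) ↔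
        ∀ i ∈ F, g i = g0 i := by
      intro g
      simp
    by_cases hall : ∀ n, ∃ v, (n, v) ∈ Θ' C
    · obtain ⟨n, v, h1, h2, h3⟩ := hP Θ' hΘ' hall
      rw [hΘC] at h2
      obtain ⟨g, hg, hgv⟩ := h2
      exact ⟨g, hF g ((hq g).mp hg), Or.inl ⟨n, v, ⟨h1, h3⟩, hgv⟩⟩
    · push Not at hall
      obtain ⟨n, hn⟩ := hall
      have hsub : {g' : ι → Bool | ∀ i ∈ F, g' i = g0 i} ⊆ D := by
        intro g hg
        refine ⟨n, fun v hv => hn v ?_⟩
        rw [hΘC]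
        exact ⟨g, (hq g).mpr hg, hv⟩
      exact ⟨g0, hg0, Or.inr (interior_maximal hsub (isOpen_basic F g0) (fun i _ => rfl))⟩
  · rintro g (h | h) y hy heq
    · obtain ⟨n, v, ⟨h1, h2⟩, h3⟩ := h
      rw [heq] at h3
      have h4 : t (pre y n) = v := h3
      have h5 := h2 (pre y n) (prefix_pre_of_mem_cyl hy h1) (length_pre y n)
      rw [h4] at h5
      cases v <;> simp at h5
    · obtain ⟨n, hn⟩ := interior_subset h
      refine hn (rho t y n) ?_
      rw [heq]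
      rfl

/-- (J1) -/
theorem gen_J1 {β : Type} [Primcodable β] (t : List Bool → Bool) (C : Set β) (a z : ℕ → Bool)
    (hP : ∀ Θ : Set β → Set (ℕ × Bool), IsOp Θ → ∀ u : List Bool, a ∉ cyl u → z ∉ cyl u →
      (∀ n, ∃ v, (n, v) ∈ Θ C) →
      ∃ n v, u.length ≤ n ∧ (n, v) ∈ Θ C ∧ ∀ w, u <+: w → w.length = n → t w = !v) :
    ∀ᶠ g : X3 in residual X3, ∀ y, y ≠ a → y ≠ z →
      ¬ ER (rs (rho t y)) (sj C (sj (gr g.1) (sj (gr g.2.1) (gr g.2.2)))) := by
  obtain ⟨Φ, hΦ, hΦ'⟩ := exists_enum_IsOp (α := β ⊕ ((List Bool ⊕ (ℕ ⊕ ℕ)) × Bool))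
    (β := ℕ × Bool)
  have h1 : ∀ᶠ g : X3 in residual X3, ∀ (i : ℕ) (u : List Bool), a ∉ cyl u → z ∉ cyl u →
      ∀ y ∈ cyl u, Φ i (sj C (gr (eX3.symm g))) ≠ gr (rho t y) := by
    rw [eventually_countable_forall]
    intro i
    rw [eventually_countable_forall]
    intro u
    by_cases hu : a ∉ cyl u ∧ z ∉ cyl u
    · obtain ⟨V, hV1, hV2, hV3⟩ := avoid_rho (ι := List Bool ⊕ (ℕ ⊕ ℕ)) t C u
        (fun Θ hΘ h => hP Θ hΘ u hu.1 hu.2 h) (Φ i) (hΦ i)
      refine residual_homeo eX3 hV1 hV2 (fun x hx => ?_)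
      intro _ _ y hy
      rw [Homeomorph.symm_apply_apply]
      exact hV3 x hx y hy
    · refine Filter.Eventually.of_forall (fun g h1 h2 => absurd ⟨h1, h2⟩ hu)
  obtain ⟨Ψ, hΨ, hΨ'⟩ := exists_splitOp β
  filter_upwards [h1] with g hg
  intro y hya hyz hER
  obtain ⟨u, hu1, hu2, hu3⟩ := exists_sep hya hyz
  have h2 : ER (gr (rho t y)) (sj C (gr (eX3.symm g))) := by
    have h3 : ER (sj C (sj (gr g.1) (sj (gr g.2.1) (gr g.2.2)))) (sj C (gr (eX3.symm g))) := by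
      have := hΨ' C (eX3.symm g)
      rw [Homeomorph.apply_symm_apply] at this
      rw [← this]
      exact ER.of_op hΨ _
    exact (ER.of_cd _).trans (hER.trans h3)
  obtain ⟨Θ, hΘ, hΘ'⟩ := h2
  obtain ⟨i, rfl⟩ := hΦ' Θ hΘ
  exact hg i u hu2 hu3 y hu1 hΘ'

/-- (J2) -/
theorem gen_J2 (B : Set ℕ) :
    ∀ᶠ g : X3 in residual X3, ∀ y, y ≠ g.2.1 → y ≠ g.2.2 →
      ¬ ER (rs (rho g.1 y)) (sj B (sj (rs (rho g.1 g.2.1)) (rs (rho g.1 g.2.2)))) := by
  obtain ⟨Φ, hΦ, hΦ'⟩ := exists_enum_IsOp (α := ℕ ⊕ (ℕ ⊕ ℕ)) (β := ℕ × Bool)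
  set S : X3 → Set (ℕ ⊕ (ℕ ⊕ ℕ)) := fun g =>
    sj B (sj (rs (rho g.1 g.2.1)) (rs (rho g.1 g.2.2))) with hS
  have hSo : ∀ x, IsOpen {g | x ∈ S g} := by
    intro x
    refine isOpen_mem_sj (fun x => isOpen_const_mem B x) (fun x => ?_) x
    refine isOpen_mem_sj (fun x => ?_) (fun x => ?_) x
    · exact isOpen_mem_rs_rho continuous_fst (continuous_fst.comp continuous_snd) x
    · exact isOpen_mem_rs_rho continuous_fst (continuous_snd.comp continuous_snd) x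
  have h1 : ∀ᶠ g : X3 in residual X3, ∀ (i : ℕ) (u : List Bool), ¬ (g.2.1 ∈ cyl u ∨ g.2.2 ∈ cyl u) →
      (∀ n, ∃ v, (n, v) ∈ Φ i (S g)) → ∃ n v, u.length ≤ n ∧ (n, v) ∈ Φ i (S g) ∧
        ∀ w, u <+: w → w.length = n → g.1 w = !v := by
    rw [eventually_countable_forall]
    intro i
    rw [eventually_countable_forall]
    intro u
    obtain ⟨V, hV1, hV2, hV3⟩ := label_forcing S hSo {ω | ω.1 ∈ cyl u ∨ ω.2 ∈ cyl u}
      (((isOpen_cyl u).preimage continuous_fst).union ((isOpen_cyl u).preimage continuous_snd)) u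
      (by
        intro ω hω t t' htt'
        have key : ∀ y : ℕ → Bool, y ∉ cyl u → rho t y = rho t' y := by
          intro y hy
          funext n
          exact htt' _ (fun h => hy (mem_cyl_of_prefix_pre h))
        have e1 := key ω.1 (fun h => hω (Or.inl h))
        have e2 := key ω.2 (fun h => hω (Or.inr h))
        simp only [hS, e1, e2]) (Φ i) (hΦ i)
    filter_upwards [residual_of_open_dense hV1 hV2] with g hg
    exact hV3 g hg
  filter_upwards [h1] with g hg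
  intro y hya hyz hER
  obtain ⟨u, hu1, hu2, hu3⟩ := exists_sep hya hyz
  obtain ⟨Θ, hΘ, hΘ'⟩ := (ER.of_cd (gr (rho g.1 y))).trans hER
  obtain ⟨i, rfl⟩ := hΦ' Θ hΘ
  change Φ i (S g) = gr (rho g.1 y) at hΘ'
  obtain ⟨n, v, h2, h3, h4⟩ := hg i u (by rintro (h | h); exacts [hu2 h, hu3 h])
    (fun n => ⟨rho g.1 y n, by rw [hΘ']; rfl⟩)
  rw [hΘ'] at h3
  have h5 : g.1 (pre y n) = v := h3
  have h6 := h4 (pre y n) (prefix_pre_of_mem_cyl hu1 h2) (length_pre y n)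
  rw [h5] at h6
  cases v <;> simp at h6

end ME
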