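import Pool.Agent.Helper83.ME.Step4a

/-!
# Step 4 (second tree), part b: the set Bad
-/

set_option autoImplicit false

namespace ME

open Encodable Set Filter Topology

/-- `Xi` computes `p(n + 1)` from `x`, the tree and the branch whenever the labels of the two
successors of the `n`-th node of the branch are different -/
def BadAt (x : Set ℕ) (p : ℕ → Bool)
    (Xi : Set (ℕ ⊕ ((List Bool × Bool) ⊕ (ℕ × Bool))) → Set (ℕ × Bool)) (N : ℕ)
    (T : List Bool → Bool) (A : ℕ → Bool) : Prop :=
  Xi (sj x (sj (gr T) (gr A))) ⊆ gr p ∧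
    ∀ n, N ≤ n → T (pre A (n + 1)) ≠ T (pre A n ++ [!A n]) →
      (n + 1, p (n + 1)) ∈ Xi (sj x (sj (gr T) (gr A)))

theorem pre_succ (y : ℕ → Bool) (n : ℕ) : pre y (n + 1) = pre y n ++ [y n] := by
  unfold pre
  rw [List.range_succ, List.map_append, List.map_singleton]

/-- (Bad) -/
theorem gen_bad (x : Set ℕ) (p : ℕ → Bool) (hp : ¬ ER (rs p) x)
    (Xi : Set (ℕ ⊕ ((List Bool × Bool) ⊕ (ℕ × Bool))) → Set (ℕ × Bool)) (hXi : IsOp Xi) (N : ℕ) :
    ∀ᶠ g : X3 in residual X3, ¬ BadAt x p Xi N g.1 g.2.1 := by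
  classical
  set K : Type := List Bool ⊕ (ℕ ⊕ ℕ) with hK
  set B : Set (K → Bool) := {g | BadAt x p Xi N (eX3 g).1 (eX3 g).2.1} with hB
  -- the operator on `x` and `g`
  obtain ⟨Ψ, hΨ, hΨ'⟩ := exists_splitOp ℕ
  set Th : Set (ℕ ⊕ (K × Bool)) → Set (ℕ × Bool) := fun Z =>
    Xi (sj {n | Sum.inl n ∈ Ψ Z} (sj {q | Sum.inr (Sum.inl q) ∈ Ψ Z}
      {q | Sum.inr (Sum.inr (Sum.inl q)) ∈ Ψ Z})) with hTh
  have hThop : IsOp Th := by
    have h1 : IsOp (fun Y : Set (ℕ ⊕ ((List Bool × Bool) ⊕ ((ℕ × Bool) ⊕ (ℕ × Bool)))) =>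
        Xi (sj {n | Sum.inl n ∈ Y} (sj {q | Sum.inr (Sum.inl q) ∈ Y}
          {q | Sum.inr (Sum.inr (Sum.inl q)) ∈ Y}))) := by
      refine hXi.comp (IsOp.sj IsOp.inl (IsOp.sj ?_ ?_))
      · exact EP.mem (f := fun q : List Bool × Bool => (Sum.inr (Sum.inl q) :
          ℕ ⊕ ((List Bool × Bool) ⊕ ((ℕ × Bool) ⊕ (ℕ × Bool)))))
          (Primrec.sumInr.comp Primrec.sumInl)
      · exact EP.mem (f := fun q : ℕ × Bool => (Sum.inr (Sum.inr (Sum.inl q)) :
          ℕ ⊕ ((List Bool × Bool) ⊕ ((ℕ × Bool) ⊕ (ℕ × Bool)))))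
          (Primrec.sumInr.comp (Primrec.sumInr.comp Primrec.sumInl))
    exact h1.comp hΨ
  have hThg : ∀ g, Th (sj x (gr g)) = Xi (sj x (sj (gr (eX3 g).1) (gr (eX3 g).2.1))) := by
    intro g
    simp only [hTh, hΨ']
    rfl
  have hSo : ∀ s, IsOpen {g : K → Bool | s ∈ sj x (gr g)} := fun s =>
    isOpen_mem_sj (fun s => isOpen_const_mem x s) (fun s => isOpen_mem_gr continuous_id s) s
  -- `B` is nowhere dense
  have hnd : Dense (closure B)ᶜ := by
    rw [dense_iff_inter_open]
    rintro O hO ⟨g0, hg0⟩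
    by_contra hne
    have hOB : O ⊆ closure B := by
      intro g hg
      by_contra h
      exact hne ⟨g, hg, h⟩
    obtain ⟨F, hF⟩ := exists_basic hO hg0
    obtain ⟨Θ', hΘ', hΘC⟩ := forced_op Th hThop (F.toList.map (fun i => (i, g0 i)))
    have hq : ∀ g : K → Bool, (∀ p ∈ F.toList.map (fun i => (i, g0 i)), g p.1 = p.2) ↔
        ∀ i ∈ F, g i = g0 i := by
      intro g
      simp
    set U : Set (K → Bool) := {g | ∀ i ∈ F, g i = g0 i} with hU
    have hUo : IsOpen U := isOpen_basic F g0
    have hUO : U ⊆ O := fun g hg => hF g hg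
    apply hp
    -- soundness
    have hsound : Θ' x ⊆ gr p := by
      intro q hq'
      rw [hΘC] at hq'
      obtain ⟨g, hg, hgq⟩ := hq'
      have hgU : g ∈ U := (hq g).mp hg
      have hOo : IsOpen (U ∩ {g | q ∈ Th (sj x (gr g))}) := hUo.inter (hThop.isOpen hSo q)
      obtain ⟨g', ⟨h1, h2⟩, h3⟩ := mem_closure_iff.mp (hOB (hUO hgU)) _ hOo ⟨hgU, hgq⟩
      have h4 : q ∈ Th (sj x (gr g')) := h2
      rw [hThg] at h4
      exact h3.1 h4
    -- completeness
    obtain ⟨M, hM⟩ : ∃ M, ∀ w : List Bool, (Sum.inl w : K) ∈ F → w.length < M :=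
      ⟨F.sup (Sum.elim List.length (fun _ => 0)) + 1, fun w hw => by
        have := Finset.le_sup (f := Sum.elim List.length (fun _ => 0)) hw
        simp only [Sum.elim_inl] at this
        omega⟩
    have hcomp : ∀ n, N ≤ n → M ≤ n → (n + 1, p (n + 1)) ∈ Θ' x := by
      intro n hn hMn
      set A0 : ℕ → Bool := (eX3 g0).2.1 with hA0
      set w1 : List Bool := pre A0 (n + 1) with hw1
      set g1 : K → Bool := fun i => match i with
        | Sum.inl w => if w.length = n + 1 then decide (w = w1) else g0 (Sum.inl w)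
        | Sum.inr j => g0 (Sum.inr j) with hg1
      have hg1U : g1 ∈ U := by
        rintro (w | j) hi
        · have h1 : w.length < M := hM w hi
          have h2 : ¬ w.length = n + 1 := by omega
          simp only [hg1, h2, if_false]
        · rfl
      have hA1 : (eX3 g1).2.1 = A0 := rfl
      have hT1 : (eX3 g1).1 w1 = true := by
        change g1 (Sum.inl w1) = true
        simp [hg1, hw1]
      have hT2 : (eX3 g1).1 (pre A0 n ++ [!A0 n]) = false := by
        change g1 (Sum.inl (pre A0 n ++ [!A0 n])) = false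
        have h1 : (pre A0 n ++ [!A0 n]).length = n + 1 := by simp
        have h2 : ¬ (pre A0 n ++ [!A0 n] = w1) := by
          rw [hw1, pre_succ]
          intro h
          have := List.append_cancel_left h
          simp at this
        simp only [hg1, h1, if_true, h2, decide_false]
      set O2 : Set (K → Bool) := U ∩ ({g | pre (eX3 g).2.1 (n + 1) = w1} ∩
        ({g | g (Sum.inl w1) = true} ∩ {g | g (Sum.inl (pre A0 n ++ [!A0 n])) = false})) with hO2
      have hc : Continuous (fun g : K → Bool => (eX3 g).2.1) :=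
        continuous_fst.comp (continuous_snd.comp eX3.continuous)
      have hO2o : IsOpen O2 :=
        hUo.inter (((isOpen_pre_eq (n + 1) w1).preimage hc).inter
          ((isOpen_apply_eq _ _).inter (isOpen_apply_eq _ _)))
      obtain ⟨g', ⟨h1, h2, h3, h4⟩, h5⟩ := mem_closure_iff.mp (hOB (hUO hg1U)) O2 hO2o
        ⟨hg1U, rfl, hT1, hT2⟩
      have h2' : pre (eX3 g').2.1 (n + 1) = w1 := h2
      have h6 : pre (eX3 g').2.1 n ++ [!(eX3 g').2.1 n] = pre A0 n ++ [!A0 n] := by
        have e1 : pre (eX3 g').2.1 n ++ [(eX3 g').2.1 n] = pre A0 n ++ [A0 n] := by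
          rw [← pre_succ, ← pre_succ, h2']
        have e2 := List.append_inj' e1 rfl
        have e3 : (eX3 g').2.1 n = A0 n := by simpa using e2.2
        rw [e2.1, e3]
      have h7 := h5.2 n hn (by
        rw [h6, h2']
        change g' (Sum.inl w1) ≠ g' (Sum.inl (pre A0 n ++ [!A0 n]))
        rw [h3, h4]
        simp)
      rw [hΘC]
      refine ⟨g', (hq g').mpr h1, ?_⟩
      rw [hThg]
      exact h7
    -- conclusion
    have hfin : ER (gr p) x := by
      set n0 := max N M + 1 with hn0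
      have h1 : RE (fun q : ℕ × Bool => q ∈ (List.range n0).map (fun n => (n, p n))) :=
        RE.list_mem (f := fun q : ℕ × Bool => q) (g := fun _ => (List.range n0).map
          (fun n => (n, p n))) Primrec.id (Primrec.const _)
      refine ⟨fun Z => Θ' Z ∪ {q | q ∈ (List.range n0).map (fun n => (n, p n))},
        hΘ'.union (IsOp.const h1), ?_⟩
      ext ⟨n, v⟩
      constructor
      · rintro (h | h)
        · exact hsound h
        · obtain ⟨m, -, hm⟩ := List.mem_map.mp h
          simp only [Prod.mk.injEq] at hm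
          obtain ⟨rfl, rfl⟩ := hm
          rfl
      · intro h
        have hv : p n = v := h
        by_cases hn : n < n0
        · right
          exact List.mem_map.mpr ⟨n, List.mem_range.mpr hn, by rw [hv]⟩
        · left
          obtain ⟨k, rfl⟩ : ∃ k, n = k + 1 := ⟨n - 1, by omega⟩
          rw [← hv]
          refine hcomp k ?_ ?_
          · have := le_max_left N M; omega
          · have := le_max_right N M; omega
    exact hfin.cd_left
  refine residual_homeo eX3 isClosed_closure.isOpen_compl hnd (fun g hg h => ?_)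
  exact hg (subset_closure h)

end ME
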